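import Mathlib

set_option autoImplicit false

/-! Arithmetic for MP_41f3d4_co: functions bounded by `c * (w+1)^d`, and the recursion. -/

namespace Pool.Agent.T6.H5.TM

/-- `f` is bounded by a polynomial. -/
def PolyB (f : ℕ → ℕ) : Prop := ∃ c d : ℕ, ∀ w, f w ≤ c * (w + 1) ^ d

theorem PolyB.mono {f g : ℕ → ℕ} (h : PolyB g) (hfg : ∀ w, f w ≤ g w) : PolyB f := by
  obtain ⟨c, d, h⟩ := h
  exact ⟨c, d, fun w => (hfg w).trans (h w)⟩

theorem PolyB.const (a : ℕ) : PolyB (fun _ => a) := ⟨a, 0, fun w => by simp⟩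

theorem PolyB.id : PolyB (fun w => w) := ⟨1, 1, fun w => by simp⟩

theorem PolyB.add {f g : ℕ → ℕ} (hf : PolyB f) (hg : PolyB g) : PolyB (fun w => f w + g w) := by
  obtain ⟨a, d, hf⟩ := hf
  obtain ⟨b, e, hg⟩ := hg
  refine ⟨a + b, d + e, fun w => ?_⟩
  have h1 : (w + 1) ^ d ≤ (w + 1) ^ (d + e) := Nat.pow_le_pow_right (Nat.succ_pos w) (by omega)
  have h2 : (w + 1) ^ e ≤ (w + 1) ^ (d + e) := Nat.pow_le_pow_right (Nat.succ_pos w) (by omega)
  have h3 := hf w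
  have h4 := hg w
  calc f w + g w ≤ a * (w + 1) ^ d + b * (w + 1) ^ e := by omega
    _ ≤ a * (w + 1) ^ (d + e) + b * (w + 1) ^ (d + e) :=
      Nat.add_le_add (Nat.mul_le_mul_left _ h1) (Nat.mul_le_mul_left _ h2)
    _ = (a + b) * (w + 1) ^ (d + e) := by ring

theorem PolyB.mul {f g : ℕ → ℕ} (hf : PolyB f) (hg : PolyB g) : PolyB (fun w => f w * g w) := by
  obtain ⟨a, d, hf⟩ := hf
  obtain ⟨b, e, hg⟩ := hg
  refine ⟨a * b, d + e, fun w => ?_⟩
  calc f w * g w ≤ (a * (w + 1) ^ d) * (b * (w + 1) ^ e) := Nat.mul_le_mul (hf w) (hg w)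
    _ = (a * b) * (w + 1) ^ (d + e) := by ring

theorem PolyB.pow {f : ℕ → ℕ} (hf : PolyB f) (m : ℕ) : PolyB (fun w => f w ^ m) := by
  induction m with
  | zero => exact (PolyB.const 1).mono (fun w => by simp)
  | succ m ih => exact (ih.mul hf).mono (fun w => by simp [pow_succ])

theorem PolyB.shift {f : ℕ → ℕ} (hf : PolyB f) : PolyB (fun w => f (w + 1)) := by
  obtain ⟨a, d, hf⟩ := hf
  refine ⟨a * 2 ^ d, d, fun w => ?_⟩
  calc f (w + 1) ≤ a * (w + 1 + 1) ^ d := hf (w + 1)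
    _ ≤ a * (2 * (w + 1)) ^ d := Nat.mul_le_mul_left _ (Nat.pow_le_pow_left (by omega) d)
    _ = a * 2 ^ d * (w + 1) ^ d := by rw [mul_pow]; ring

/-- Summing a polynomially bounded increment keeps the bound polynomial. -/
theorem PolyB.sum {f g : ℕ → ℕ} (hg : PolyB g) (h0 : PolyB (fun _ => f 0))
    (h : ∀ w, f (w + 1) ≤ f w + g w) : PolyB f := by
  obtain ⟨a, d, hg⟩ := hg
  have key : ∀ w, f w ≤ f 0 + w * (a * (w + 1) ^ d) := by
    intro w
    induction w with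
    | zero => simp
    | succ w ih =>
      have h1 : (w + 1) ^ d ≤ (w + 1 + 1) ^ d := Nat.pow_le_pow_left (by omega) d
      have h2 := h w
      have h3 := hg w
      have h4 : a * (w + 1) ^ d ≤ a * (w + 1 + 1) ^ d := Nat.mul_le_mul_left _ h1
      have h5 : w * (a * (w + 1) ^ d) ≤ w * (a * (w + 1 + 1) ^ d) := Nat.mul_le_mul_left _ h4
      have h6 : (w + 1) * (a * (w + 1 + 1) ^ d) = w * (a * (w + 1 + 1) ^ d) + a * (w + 1 + 1) ^ d := by
        ring
      omega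
  have h1 : PolyB (fun w => f 0 + w * (a * (w + 1) ^ d)) :=
    h0.add (PolyB.id.mul ⟨a, d, fun w => le_rfl⟩)
  exact h1.mono key

/-- Final form: a polynomially bounded function that vanishes at zero is at most
`c * w ^ d`. -/
theorem PolyB.final {f : ℕ → ℕ} (hf : PolyB f) (h0 : f 0 = 0) :
    ∃ c d : ℕ, ∀ w, f w ≤ c * w ^ d := by
  obtain ⟨a, d, hf⟩ := hf
  refine ⟨a * 2 ^ d, d, fun w => ?_⟩
  cases w with
  | zero => rw [h0]; exact Nat.zero_le _
  | succ w =>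
    calc f (w + 1) ≤ a * (w + 1 + 1) ^ d := hf (w + 1)
      _ ≤ a * (2 * (w + 1)) ^ d := Nat.mul_le_mul_left _ (Nat.pow_le_pow_left (by omega) d)
      _ = a * 2 ^ d * (w + 1) ^ d := by rw [mul_pow]; ring

end Pool.Agent.T6.H5.TM
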